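import Pool.Agent.H.MP_79c14d_al.Tree

set_option autoImplicit false

namespace Pool.Agent.H.MP_79c14d_al
open Subgroup Equiv
open scoped commutatorElement

/-- Product of the free soluble quotients. -/
abbrev P := ∀ j : ℕ, F ⧸ D j

/-- Diagonal map. -/
def ψ₀ : F →* P := MonoidHom.pi fun j => QuotientGroup.mk' (D j)

variable (u : ℕ → F) (σ : ℕ → Bool)

/-- Finite approximations. -/
def T : ℕ → ℕ → F
  | 0, _ => 1
  | n + 1, i => (if σ i then u i else 1) * ⁅T n (i + 1), u i⁆

/-- The new elements. -/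
def t (i : ℕ) : P := fun j => QuotientGroup.mk' (D j) (T u σ (j - i) i)

variable {u}

theorem t_eq (hu : ∀ i, u i ∈ D i) (i : ℕ) :
    t u σ i = ψ₀ (if σ i then u i else 1) * ⁅t u σ (i + 1), ψ₀ (u i)⁆ := by
  ext j
  change _ = QuotientGroup.mk' (D j) _ * ⁅t u σ (i + 1) j, QuotientGroup.mk' (D j) (u i)⁆
  rcases lt_or_ge i j with h | h
  · rw [t, t, ← map_commutatorElement, ← map_mul, show j - i = j - (i + 1) + 1 by omega, T]
  · have : QuotientGroup.mk' (D j) (u i) = 1 :=
      (QuotientGroup.eq_one_iff _).2 (derivedSeries_antitone F h (hu i))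
    rw [t, Nat.sub_eq_zero_of_le h, this, T]
    split_ifs <;> simp [this]

theorem t_inj {x : ℕ → W} (h : ∀ i, u i ∈ D i ∧ x i <+: x (i + 1) ∧
    (∀ z, ¬ x i <+: z → ρ (u i) z = z) ∧ ∀ z, x (i + 1) <+: z → ¬ x (i + 1) <+: ρ (u i) z) :
    Function.Injective fun σ => t u σ 0 := fun σ τ e => by
  have h1 : ∀ σ n i z, ¬ x i <+: z → ρ (T u σ n i) z = z := fun σ n => by
    induction n with
    | zero => simp [T]
    | succ n ih =>
      intro i z hz
      have h2 : ∀ z, ¬ x i <+: z → ρ (T u σ n (i + 1)) z = z := fun z hz =>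
        ih _ z fun e => hz ((h i).2.1.trans e)
      have h3 := (h i).2.2.1 z hz
      have h4 : ∀ p : Perm W, p z = z → p⁻¹ z = z := fun p e => by rw [Perm.inv_eq_iff_eq, e]
      simp only [T, map_mul, commutatorElement_def, map_inv, Perm.mul_apply, h4 _ h3, h4 _ (h2 z hz),
        h3, h2 z hz]
      split_ifs <;> simp [h3]
  have h2 : ∀ i k, i ≤ k → x i <+: x k := fun i k hk => by
    induction hk with
    | refl => exact List.prefix_rfl
    | step _ ih => exact ih.trans (h _).2.1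
  have h3 : ∀ k d i n, i + d = k → d < n → ρ (T u σ n i) (x (k + 1)) = ρ (T u τ n i) (x (k + 1)) →
      σ k = τ k := fun k d => by
    have : ∀ i n, i ≤ k → ρ (T u σ (n + 1) i) (x (k + 1)) = ρ (T u τ (n + 1) i) (x (k + 1)) →
        σ i = τ i ∧ ρ (T u σ n (i + 1)) (x (k + 1)) = ρ (T u τ n (i + 1)) (x (k + 1)) := by
      intro i n hi e
      obtain ⟨e1, e2⟩ := comm_apply (h1 σ n (i + 1)) (h i).2.2.2 (h2 _ _ (Nat.succ_le_succ hi))
      obtain ⟨e3, e4⟩ := comm_apply (h1 τ n (i + 1)) (h i).2.2.2 (h2 _ _ (Nat.succ_le_succ hi))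
      simp only [T, map_mul, Perm.mul_apply, map_commutatorElement, e1, e3] at e
      cases hσ : σ i <;> cases hτ : τ i <;> simp [hσ, hτ] at e
      · exact ⟨rfl, e⟩
      · exact ((h i).2.2.2 _ e4 (e ▸ e2)).elim
      · exact ((h i).2.2.2 _ e2 (e ▸ e4)).elim
      · exact ⟨rfl, e⟩
    induction d with
    | zero =>
      rintro i (_ | n) rfl hn e
      exacts [by omega, (this _ n le_rfl e).1]
    | succ d ih =>
      rintro i (_ | n) hi hn e
      exacts [by omega, ih (i + 1) n (by omega) (by omega) (this i n (by omega) e).2]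
  funext k
  let j := (x (k + 1)).length + (k + 1)
  refine h3 k k 0 j (zero_add k) (by omega) ?_
  have := fix (x (k + 1)) j (by omega) _ (QuotientGroup.eq.1 (congrFun e j))
  rw [map_mul, map_inv, Perm.mul_apply, Perm.inv_eq_iff_eq] at this
  exact this.symm

variable (u)

/-- The group. -/
def Γ : Subgroup P := closure (Set.range ψ₀ ∪ {p | ∃ σ i, p = t u σ i})

/-- The homomorphism. -/
def ψ : F →* Γ u := ψ₀.codRestrict _ fun x => subset_closure (Or.inl ⟨x, rfl⟩)

/-- The new elements in the group. -/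
def s (i : ℕ) : Γ u := ⟨t u σ i, subset_closure (Or.inr ⟨σ, i, rfl⟩)⟩

variable {u}

theorem s_eq (hu : ∀ i, u i ∈ D i) (i : ℕ) :
    s u σ i = ψ u (if σ i then u i else 1) * ⁅s u σ (i + 1), ψ u (u i)⁆ :=
  Subtype.ext (t_eq σ hu i)

theorem s_mem (hu : ∀ i, u i ∈ D i) (j : ℕ) : ∀ i, j ≤ i → s u σ i ∈ derivedSeries (Γ u) j := by
  have : ∀ i j, j ≤ i → ψ u (u i) ∈ derivedSeries (Γ u) j := fun i j h =>
    map_derivedSeries_le_derivedSeries _ j ⟨_, derivedSeries_antitone F h (hu i), rfl⟩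
  induction j with
  | zero => exact fun _ _ => mem_top _
  | succ j ih =>
    intro i hi
    rw [s_eq σ hu]
    refine mul_mem ?_ (commutator_mem_commutator (ih _ (by omega)) (this _ _ (by omega)))
    split_ifs
    exacts [this _ _ hi, by simp]

theorem surj (hu : ∀ i, u i ∈ D i) (j : ℕ) (γ : Γ u) :
    ∃ x, (ψ u x)⁻¹ * γ ∈ derivedSeries (Γ u) j := by
  let H := (ψ u).range ⊔ derivedSeries (Γ u) j
  have h1 : ∀ x, ψ u x ∈ H := fun x => mem_sup_left ⟨x, rfl⟩
  have h2 : ∀ σ d i, j ≤ i + d → s u σ i ∈ H := fun σ d => by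
    induction d with
    | zero => exact fun i hi => mem_sup_right (s_mem σ hu j i hi)
    | succ d ih =>
      intro i hi
      have := ih (i + 1) (by omega)
      rw [s_eq σ hu]
      exact mul_mem (h1 _) (mul_mem (mul_mem (mul_mem this (h1 _)) (inv_mem this)) (inv_mem (h1 _)))
  have h3 : γ ∈ H := by
    obtain ⟨γ, hγ⟩ := γ
    induction hγ using closure_induction with
    | mem _ h =>
      rcases h with ⟨x, rfl⟩ | ⟨σ, i, rfl⟩
      exacts [h1 x, h2 σ j i (by omega)]
    | one => exact one_mem H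
    | mul _ _ _ _ h h' => exact mul_mem h h'
    | inv _ _ h => exact inv_mem h
  obtain ⟨_, ⟨x, rfl⟩, y, hy, rfl⟩ := mem_sup_of_normal_right.1 h3
  exact ⟨x, by simpa using hy⟩

theorem quot (j : ℕ) : derivedSeries (F ⧸ D j) j = ⊥ := by
  rw [← map_derivedSeries_eq (QuotientGroup.mk'_surjective _), Subgroup.map_eq_bot_iff,
    QuotientGroup.ker_mk']

theorem main : ∃ (n : ℕ) (Γ : Type) (_ : Group Γ) (ψ : FreeGroup (Fin n) →* Γ),
      (∀ g : Γ, g ≠ 1 →
        ∃ (S : Type) (_ : Group S) (_ : Group.IsSolvable S) (f : Γ →* S), f g ≠ 1) ∧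
      ¬ IsFreeGroup Γ ∧
      ∀ j : ℕ, 1 ≤ j →
        (derivedSeries Γ j).comap ψ = derivedSeries (FreeGroup (Fin n)) j ∧
        ∀ γ : Γ, ∃ x : FreeGroup (Fin n), (ψ x)⁻¹ * γ ∈ derivedSeries Γ j := by
  classical
  obtain ⟨u, x, h⟩ := nested
  have hu := fun i => (h i).1
  refine ⟨2, Γ u, inferInstance, ψ u, fun g hg => ?_, fun hF => ?_, fun j _ => ⟨le_antisymm
    (fun y hy => ?_) (map_le_iff_le_comap.1 (map_derivedSeries_le_derivedSeries _ j)), surj hu j⟩⟩
  · obtain ⟨j, hj⟩ := Function.ne_iff.1 (fun e => hg (Subtype.ext e) : g.1 ≠ 1)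
    exact ⟨F ⧸ D j, inferInstance, ⟨j, quot j⟩, (Pi.evalMonoidHom _ j).comp (Γ u).subtype, hj⟩
  · choose y hy using surj hu 1
    have : Countable (IsFreeGroup.Generators (Γ u)) :=
      Function.Injective.countable (f := fun i => y (IsFreeGroup.of i)) fun i i' e => by
        let χ : Γ u →* Multiplicative ℤ := IsFreeGroup.lift fun k => .ofAdd (if k = i then 1 else 0)
        have h1 : ∀ γ, χ (ψ u (y γ)) = χ γ := fun γ => by
          have := Abelianization.commutator_subset_ker χ (hy γ)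
          rwa [MonoidHom.mem_ker, map_mul, map_inv, inv_mul_eq_one] at this
        have := (h1 _).symm.trans ((congrArg (fun z => χ (ψ u z)) e).trans (h1 _))
        by_contra h0
        simp [χ, Ne.symm h0] at this
    have := (IsFreeGroup.toFreeGroup (Γ u)).injective.countable
    have : Countable (ℕ → Bool) := Function.Injective.countable (f := fun σ => s u σ 0)
      fun σ τ e => t_inj h (congrArg Subtype.val e)
    obtain ⟨f, hf⟩ := exists_surjective_nat (ℕ → Bool)
    obtain ⟨k, hk⟩ := hf fun k => !f k k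
    simpa using congrFun hk k
  · have := map_derivedSeries_le_derivedSeries ((Pi.evalMonoidHom _ j).comp (Γ u).subtype) j
      ⟨_, hy, rfl⟩
    rw [quot] at this
    exact (QuotientGroup.eq_one_iff _).1 this

end Pool.Agent.H.MP_79c14d_al
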