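import Mathlib

set_option autoImplicit false

namespace Pool.Agent.H.MP_79c14d_al
open Subgroup Equiv
open scoped commutatorElement

abbrev Z := ZMod 3
abbrev W := List Z
abbrev F := FreeGroup (Fin 2)
abbrev D (j : ℕ) : Subgroup F := derivedSeries F j

/-- Rooted generator. -/
def A (k : Z) : W → W
  | [] => []
  | x :: w => (x + k) :: w

/-- Directed generator. -/
def B (k : Z) : W → W
  | [] => []
  | x :: w => x :: if x = 0 then A k w else if x = 2 then B k w else w

theorem AA (k l : Z) (h : l + k = 0) (w : W) : A k (A l w) = w := by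
  cases w <;> simp [A, add_assoc, h]

theorem BB (k l : Z) (h : l + k = 0) (w : W) : B k (B l w) = w := by
  induction w with
  | nil => rfl
  | cons x w ih => simp only [B]; split_ifs <;> simp [AA k l h, ih]

/-- The action. -/
def ρ : F →* Perm W := FreeGroup.lift
  ![⟨A 1, A (-1), AA _ _ (by simp), AA _ _ (by simp)⟩, ⟨B 1, B (-1), BB _ _ (by simp), BB _ _ (by simp)⟩]

abbrev a : F := .of 0
abbrev b : F := .of 1
theorem ρa (w : W) : ρ a w = A 1 w := by simp [ρ]
theorem ρb (w : W) : ρ b w = B 1 w := by simp [ρ]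

/-- Sections. -/
def At (g : F) (x y : Z) (s : F) : Prop := ∀ w, ρ g (x :: w) = y :: ρ s w

theorem At.mul {g h s t : F} {x y z : Z} (h1 : At g y z s) (h2 : At h x y t) :
    At (g * h) x z (s * t) := fun w => by rw [map_mul, Perm.mul_apply, h2, h1, map_mul]; rfl

theorem At.inv {g s : F} {x y : Z} (h : At g x y s) : At g⁻¹ y x s⁻¹ := fun w => by
  rw [map_inv, Perm.inv_eq_iff_eq, h, map_inv]; simp

theorem At.one (x : Z) : At 1 x x 1 := fun w => by simp

theorem Ata (x : Z) : At a x (x + 1) 1 := fun w => by simp [ρa, A]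
theorem Atb0 : At b 0 0 a := fun w => by simp [ρa, ρb, B]
theorem Atb1 : At b 1 1 1 := fun w => by
  simp [ρb, B, show (1 : Z) ≠ 2 by decide]
theorem Atb2 : At b 2 2 b := fun w => by
  simp [ρb, B, show (2 : Z) ≠ 0 by decide]
theorem Atb (x : Z) : ∃ s, At b x x s := by
  have : x = 0 ∨ x = 1 ∨ x = 2 := by revert x; decide
  rcases this with rfl | rfl | rfl
  exacts [⟨_, Atb0⟩, ⟨_, Atb1⟩, ⟨_, Atb2⟩]

theorem nil (g : F) : ρ g [] = [] := by
  induction g using FreeGroup.induction_on with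
  | C1 => simp
  | of x => fin_cases x <;> simp [ρa, ρb, A, B]
  | inv_of x h => rw [map_inv, Perm.inv_eq_iff_eq, h]
  | mul g h hg hh => rw [map_mul, Perm.mul_apply, hh, hg]

theorem sec (g : F) : ∃ c, ∀ x, ∃ s, At g x (x + c) s := by
  induction g using FreeGroup.induction_on with
  | C1 => exact ⟨0, fun x => ⟨1, by simpa using At.one x⟩⟩
  | of x =>
    fin_cases x
    exacts [⟨1, fun x => ⟨1, Ata x⟩⟩, ⟨0, fun x => by simpa using Atb x⟩]
  | inv_of x h =>
    obtain ⟨c, h⟩ := h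
    exact ⟨-c, fun y => (h (y + -c)).elim fun s hs => ⟨_, by simpa using hs.inv⟩⟩
  | mul g h hg hh =>
    obtain ⟨c, hg⟩ := hg
    obtain ⟨d, hh⟩ := hh
    refine ⟨d + c, fun x => ?_⟩
    obtain ⟨t, ht⟩ := hh x
    obtain ⟨s, hs⟩ := hg (x + d)
    exact ⟨_, add_assoc x d c ▸ hs.mul ht⟩

/-- Elements fixing the first level with sections in `H`. -/
def St (H : Subgroup F) : Subgroup F where
  carrier := {g | ∀ x, ∃ s ∈ H, At g x x s}
  mul_mem' h h' x := let ⟨_, h1, h2⟩ := h x; let ⟨_, h3, h4⟩ := h' x; ⟨_, mul_mem h1 h3, h2.mul h4⟩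
  one_mem' x := ⟨1, one_mem _, At.one x⟩
  inv_mem' h x := let ⟨_, h1, h2⟩ := h x; ⟨_, inv_mem h1, h2.inv⟩

theorem level (j : ℕ) : D (j + 1) ≤ St (D j) := by
  induction j with
  | zero =>
    refine commutator_le.2 fun g _ h _ x => ?_
    obtain ⟨c, hg⟩ := sec g
    obtain ⟨d, hh⟩ := sec h
    obtain ⟨s1, h1⟩ := hh (x - d)
    obtain ⟨s2, h2⟩ := hg (x - d - c)
    obtain ⟨s3, h3⟩ := hh (x - d - c)
    obtain ⟨s4, h4⟩ := hg (x - d - c + d)
    rw [sub_add_cancel] at h1 h2
    rw [show x - d - c + d + c = x by ring] at h4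
    exact ⟨_, mem_top _, ((h4.mul h3).mul h2.inv).mul h1.inv⟩
  | succ j ih =>
    refine commutator_le.2 fun g hg h hh x => ?_
    obtain ⟨s, h1, h2⟩ := ih hg x
    obtain ⟨t, h3, h4⟩ := ih hh x
    exact ⟨_, commutator_mem_commutator h1 h3, ((h2.mul h4).mul h2.inv).mul h4.inv⟩

theorem fix (w : W) : ∀ j, w.length ≤ j → ∀ g ∈ D j, ρ g w = w := by
  induction w with
  | nil => exact fun _ _ g _ => nil g
  | cons x w ih =>
    rintro (_ | j) hj g hg
    · simp at hj
    obtain ⟨s, h1, h2⟩ := level j hg x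
    rw [h2, ih j (by simpa using hj) s h1]

theorem pre (y : W) : ∀ g, ∃ s : F, ∃ y' : W, y'.length = y.length ∧
    ∀ w, ρ g (y ++ w) = y' ++ ρ s w := by
  induction y with
  | nil => exact fun g => ⟨g, [], rfl, fun w => rfl⟩
  | cons x y ih =>
    intro g
    obtain ⟨c, h⟩ := sec g
    obtain ⟨s, h⟩ := h x
    obtain ⟨t, y', h1, h2⟩ := ih s
    exact ⟨t, (x + c) :: y', by simp [h1], fun w => by rw [List.cons_append, h, h2]; rfl⟩

/-- Acting below one letter. -/
def I (x : Z) (p : W → W) : W → W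
  | [] => []
  | y :: w => y :: if y = x then p w else w

theorem II (x : Z) (p q : W → W) (w : W) : I x p (I x q w) = I x (p ∘ q) w := by
  cases w with
  | nil => rfl
  | cons y w => simp only [I]; split_ifs <;> rfl

theorem Iid (x : Z) (w : W) : I x id w = w := by cases w <;> simp [I]

/-- Acting below one letter, as a homomorphism. -/
def ι (x : Z) : Perm W →* Perm W := MonoidHom.mk' (fun p => ⟨I x p, I x p.symm,
  fun w => by simp [II, Iid], fun w => by simp [II, Iid]⟩) fun p q => Equiv.ext fun w => (II x p q w).symm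

theorem ι_apply (x : Z) (p : Perm W) (w : W) : ι x p w = I x p w := rfl

theorem conj {g s : F} {x y : Z} (h : At g x y s) (p : Perm W) :
    ρ g * ι x p * (ρ g)⁻¹ = ι y (ρ s * p * (ρ s)⁻¹) := by
  rw [mul_inv_eq_iff_eq_mul]
  ext1 w
  obtain ⟨c, hc⟩ := sec g
  change ρ g (I x p w) = I y (ρ s * p * (ρ s)⁻¹) (ρ g w)
  cases w with
  | nil => simp [I, nil]
  | cons z w =>
    obtain ⟨t, ht⟩ := hc z
    obtain ⟨t', ht'⟩ := hc x
    have e : y = x + c := (List.cons.inj ((h []).symm.trans (ht' []))).1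
    by_cases hz : z = x
    · simp [I, hz, h _]
    · simp [I, hz, ht _, e]

theorem Atc : At (a * b * a⁻¹) 0 0 b := by
  simpa [show (2 : Z) + 1 = 0 by decide] using ((Ata 2).mul Atb2).mul (Ata 2).inv

theorem rep (h : F) : ∃ g, At g 0 0 h := by
  induction h using FreeGroup.induction_on with
  | C1 => exact ⟨1, At.one 0⟩
  | of x => fin_cases x; exacts [⟨_, Atb0⟩, ⟨_, Atc⟩]
  | inv_of x h => exact h.elim fun g h => ⟨_, h.inv⟩
  | mul g h hg hh => exact hg.elim fun _ h1 => hh.elim fun _ h2 => ⟨_, h1.mul h2⟩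

theorem br0 : D 1 ≤ ((D 1).map ρ).comap ((ι 0).comp ρ) := by
  have hn : (((D 1).map ρ).comap ((ι 0).comp ρ)).Normal := ⟨fun n ⟨g, hg, e⟩ h => by
    obtain ⟨k, hk⟩ := rep h
    exact ⟨_, (derivedSeries_normal F 1).conj_mem g hg k, by simp [e, ← conj hk]⟩⟩
  have h0 : Commute (QuotientGroup.mk' (((D 1).map ρ).comap ((ι 0).comp ρ)) a)
      (QuotientGroup.mk' _ b) := by
    rw [← commutatorElement_eq_one_iff_commute, ← map_commutatorElement]
    refine (QuotientGroup.eq_one_iff _).2 ⟨⁅b, a * b * a⁻¹⁆,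
      commutator_mem_commutator (mem_top _) (mem_top _), Equiv.ext fun w => ?_⟩
    have h1 : At (a * b * a⁻¹) 1 1 a := by simpa using ((Ata 0).mul Atb0).mul (Ata 0).inv
    have h2 : At (a * b * a⁻¹) 2 2 1 := by
      simpa [show (1 : Z) + 1 = 2 by decide] using ((Ata 1).mul Atb1).mul (Ata 1).inv
    rcases w with _ | ⟨x, w⟩
    · exact nil _
    have : x = 0 ∨ x = 1 ∨ x = 2 := by revert x; decide
    rcases this with rfl | rfl | rfl
    · exact ((Atb0.mul Atc).mul Atb0.inv).mul Atc.inv w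
    · exact (((Atb1.mul h1).mul Atb1.inv).mul h1.inv w).trans (by simp; rfl)
    · exact (((Atb2.mul h2).mul Atb2.inv).mul h2.inv w).trans (by simp; rfl)
  refine commutator_le.2 fun g _ h _ => (QuotientGroup.eq_one_iff _).1 ?_
  rw [← QuotientGroup.mk'_apply, map_commutatorElement, commutatorElement_eq_one_iff_commute]
  induction g using FreeGroup.induction_on with
  | C1 => simp
  | of x =>
    induction h using FreeGroup.induction_on with
    | C1 => simp
    | of y => fin_cases x <;> fin_cases y; exacts [.refl _, h0, h0.symm, .refl _]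
    | inv_of y h => rw [map_inv]; exact (h (mem_top _)).inv_right
    | mul g h hg hh => rw [map_mul]; exact (hg (mem_top _)).mul_right (hh (mem_top _))
  | inv_of x h => rw [map_inv]; exact (h (mem_top _)).inv_left
  | mul g h hg hh => rw [map_mul]; exact (hg (mem_top _)).mul_left (hh (mem_top _))

theorem br (m : ℕ) (x : Z) : D (m + 1) ≤ ((D (m + 1)).map ρ).comap ((ι x).comp ρ) := by
  induction m with
  | zero =>
    have : ∀ x, D 1 ≤ ((D 1).map ρ).comap ((ι x).comp ρ) →
        D 1 ≤ ((D 1).map ρ).comap ((ι (x + 1)).comp ρ) := fun x h g hg => by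
      obtain ⟨k, hk, e⟩ := h hg
      exact ⟨_, (derivedSeries_normal F 1).conj_mem k hk a, by simpa [e] using conj (Ata x) (ρ g)⟩
    have h : x = 0 ∨ x = 0 + 1 ∨ x = 0 + 1 + 1 := by revert x; decide
    rcases h with rfl | rfl | rfl
    exacts [br0, this _ br0, this _ (this _ br0)]
  | succ m ih =>
    refine commutator_le.2 fun g hg h hh => ?_
    obtain ⟨g', h1, e⟩ := ih hg
    obtain ⟨h', h2, e'⟩ := ih hh
    exact ⟨_, commutator_mem_commutator h1 h2, by simp only [map_commutatorElement, e, e']⟩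

theorem brw (m : ℕ) (x : W) (g : F) (hg : g ∈ D (m + 1)) : ∃ k ∈ D (m + 1),
    (∀ z, ¬ x <+: z → ρ k z = z) ∧ ∀ w, ρ k (x ++ w) = x ++ ρ g w := by
  induction x with
  | nil => exact ⟨g, hg, by simp, fun w => rfl⟩
  | cons y x ih =>
    obtain ⟨k, h1, h2, h3⟩ := ih
    obtain ⟨k', h4, e⟩ := br m y h1
    refine ⟨k', h4, fun z hz => ?_, fun w => by simp [e, ι_apply, I, h3]⟩
    rcases z with _ | ⟨t, z⟩
    · exact nil _
    by_cases ht : t = y
    · simp [e, ι_apply, I, ht, h2 z (by simpa [ht] using hz)]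
    · simp [e, ι_apply, I, ht]

theorem step {m : ℕ} (h : ∃ g ∈ D (m + 1), ∃ y, ρ g y ≠ y) (x : W) : ∃ k ∈ D (m + 1), ∃ y,
    x <+: y ∧ (∀ z, ¬ x <+: z → ρ k z = z) ∧ ∀ z, y <+: z → ¬ y <+: ρ k z := by
  obtain ⟨g, hg, y, hy⟩ := h
  obtain ⟨k, h1, h2, h3⟩ := brw m x g hg
  refine ⟨k, h1, x ++ y, List.prefix_append _ _, h2, ?_⟩
  rintro _ ⟨w, rfl⟩ h
  obtain ⟨s, y', h4, h5⟩ := pre y g
  rw [List.append_assoc, h3, List.prefix_append_right_inj, h5] at h
  obtain rfl := (List.prefix_of_prefix_length_le h (List.prefix_append _ _) h4.ge).eq_of_length h4.symm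
  simpa [nil, hy] using h5 []

theorem comm_apply {p q : Perm W} {U : W → Prop} (hp : ∀ z, ¬ U z → p z = z)
    (hq : ∀ z, U z → ¬ U (q z)) {z : W} (hz : U z) : ⁅p, q⁆ z = p z ∧ U (p z) := by
  refine ⟨?_, by_contra fun h => h (by rwa [p.injective (hp _ h)])⟩
  have : p⁻¹ (q⁻¹ z) = q⁻¹ z := by
    rw [Perm.inv_eq_iff_eq, hp _ fun h => hq _ h (by simpa using hz)]
  rw [commutatorElement_def, Perm.mul_apply, Perm.mul_apply, this, Perm.mul_apply]
  simp

theorem nontriv (m : ℕ) : ∃ g ∈ D (m + 1), ∃ y, ρ g y ≠ y := by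
  induction m with
  | zero =>
    refine ⟨⁅a, b⁆, commutator_mem_commutator (mem_top _) (mem_top _), [0, 0], ?_⟩
    have := ((((Ata 2).mul Atb2).mul (Ata 2).inv).mul Atb0.inv [0])
    rw [commutatorElement_def]
    erw [this]
    simp [ρ, A, B]
  | succ m ih =>
    obtain ⟨g, hg, y, -, -, h⟩ := step ih []
    obtain ⟨k, hk, y', h1, h2, h3⟩ := step ih y
    refine ⟨_, commutator_mem_commutator hk hg, y', ?_⟩
    rw [map_commutatorElement, (comm_apply h2 h h1).1]
    exact fun e => h3 _ List.prefix_rfl (e.symm ▸ List.prefix_rfl)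

theorem nested : ∃ (u : ℕ → F) (x : ℕ → W), ∀ i, u i ∈ D i ∧ x i <+: x (i + 1) ∧
    (∀ z, ¬ x i <+: z → ρ (u i) z = z) ∧ ∀ z, x (i + 1) <+: z → ¬ x (i + 1) <+: ρ (u i) z := by
  choose k hk y hy using fun m => step (nontriv m)
  let x : ℕ → W := fun i => Nat.rec [] y i
  exact ⟨fun i => k i (x i), x, fun i => ⟨derivedSeries_antitone F i.le_succ (hk i _), hy i _⟩⟩

end Pool.Agent.H.MP_79c14d_al
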